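import Pool.Agent.Helper51.PF.Goals

/-!
# Project PF: packet EX
-/

namespace Pool.Agent.Helper35.PF

open Finset Pool.Agent.Helper51.PF

theorem g_ex : G_EX := by
  classical
  intro G _ _ n v D S hv hD
  obtain ⟨i0, hi0⟩ := hD
  let A : Finset (Fin n) := univ \ D.erase i0
  have hDn : D.card ≤ n := by
    have := card_le_univ D
    rwa [Fintype.card_fin] at this
  have hD1 : 1 ≤ D.card := card_pos.2 ⟨i0, hi0⟩
  have hA : A.card + D.card = n + 1 := by
    have h1 := card_sdiff_add_card_eq_card (subset_univ (D.erase i0))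
    rw [card_erase_of_mem hi0, card_univ, Fintype.card_fin] at h1
    change (univ \ D.erase i0).card + D.card = n + 1
    omega
  let E : Finset (Equiv.Perm (Fin n)) := univ.filter (fun τ => bprod v τ D ∈ S)
  have hE : pr (fun τ : Equiv.Perm (Fin n) => bprod v τ D ∈ S) =
      (E.card : ℝ) / Fintype.card (Equiv.Perm (Fin n)) := by
    unfold pr
    congr
  have h1 : ∑ τ : Equiv.Perm (Fin n), (A.filter (fun a => τ * Equiv.swap i0 a ∈ E)).card =
      A.card * E.card := by
    simp_rw [Finset.card_filter]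
    rw [Finset.sum_comm]
    have h2 : ∀ a ∈ A, (∑ τ : Equiv.Perm (Fin n), if τ * Equiv.swap i0 a ∈ E then 1 else 0) =
        E.card := by
      intro a _
      rw [← Finset.card_filter]
      refine Finset.card_bij (fun τ _ => τ * Equiv.swap i0 a) ?_ ?_ ?_
      · intro τ hτ
        exact (mem_filter.1 hτ).2
      · intro τ _ τ' _ h
        exact mul_right_cancel h
      · intro τ hτ
        refine ⟨τ * Equiv.swap i0 a, ?_, ?_⟩
        · rw [mem_filter]
          refine ⟨mem_univ _, ?_⟩
          rw [mul_assoc, Equiv.swap_mul_self, mul_one]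
          exact hτ
        · rw [mul_assoc, Equiv.swap_mul_self, mul_one]
    rw [Finset.sum_congr rfl h2, sum_const, smul_eq_mul]
  have hb : ∀ (τ : Equiv.Perm (Fin n)) (a : Fin n), a ∈ A →
      bprod v (τ * Equiv.swap i0 a) D = v (τ a) * ∏ i ∈ D.erase i0, v (τ i) := by
    intro τ a ha
    have ha' : a ∉ D.erase i0 := (mem_sdiff.1 ha).2
    unfold bprod
    rw [← mul_prod_erase D _ hi0]
    congr 1
    · rw [Equiv.Perm.mul_apply, Equiv.swap_apply_left]
    · refine prod_congr rfl fun i hi => ?_
      rw [Equiv.Perm.mul_apply, Equiv.swap_apply_of_ne_of_ne (ne_of_mem_erase hi)]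
      intro h
      rw [h] at hi
      exact ha' hi
  have h2 : ∀ τ : Equiv.Perm (Fin n),
      (A.filter (fun a => τ * Equiv.swap i0 a ∈ E)).card ≤ S.card := by
    intro τ
    refine card_le_card_of_injOn (fun a => bprod v (τ * Equiv.swap i0 a) D) ?_ ?_
    · intro a ha
      have h3 := (mem_filter.1 (Finset.mem_coe.1 ha)).2
      exact Finset.mem_coe.2 (mem_filter.1 h3).2
    · intro a ha b hb' hab
      have ha1 := (mem_filter.1 (Finset.mem_coe.1 ha)).1
      have hb1 := (mem_filter.1 (Finset.mem_coe.1 hb')).1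
      simp only [hb τ a ha1, hb τ b hb1] at hab
      exact τ.injective (hv (mul_right_cancel hab))
  have h3 : A.card * E.card ≤ Fintype.card (Equiv.Perm (Fin n)) * S.card := by
    rw [← h1]
    refine le_trans (sum_le_sum fun τ _ => h2 τ) ?_
    rw [sum_const, smul_eq_mul, card_univ]
  have hAr : (A.card : ℝ) = (n : ℝ) - D.card + 1 := by
    have : (A.card : ℝ) + D.card = n + 1 := by exact_mod_cast hA
    linarith
  have hApos : (0 : ℝ) < (n : ℝ) - D.card + 1 := by
    have : (D.card : ℝ) ≤ n := by exact_mod_cast hDn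
    linarith
  have hcpos : (0 : ℝ) < Fintype.card (Equiv.Perm (Fin n)) := by
    exact_mod_cast Fintype.card_pos
  rw [hE, div_le_div_iff₀ hcpos hApos, ← hAr]
  have h4 : ((A.card * E.card : ℕ) : ℝ) ≤
      ((Fintype.card (Equiv.Perm (Fin n)) * S.card : ℕ) : ℝ) := by exact_mod_cast h3
  push_cast at h4
  linarith

end Pool.Agent.Helper35.PF
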