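import Pool.Agent.Helper51.PF.Goals

/-!
# Project PF: packet PV
-/

namespace Pool.Agent.Helper35.PF

open Finset Pool.Agent.Helper51.PF

theorem g_pv (hGEO : G_GEO) (hHSUM : G_HSUM) : G_PV := by
  intro p _ χ hχ c k
  have hp : p.Prime := Fact.out
  obtain ⟨ψ, hψdef⟩ : ∃ ψ : AddChar (ZMod p) ℂ, ψ = ZMod.stdAddChar := ⟨_, rfl⟩
  have hψ : ψ.IsPrimitive := by rw [hψdef]; exact ZMod.isPrimitive_stdAddChar p
  have hχi : χ⁻¹ ≠ 1 := inv_ne_one.2 hχ
  obtain ⟨τ, hτdef⟩ : ∃ τ, τ = gaussSum χ⁻¹ ψ := ⟨_, rfl⟩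
  have hτ : ‖τ‖ = √p := by
    have h1 := gaussSum_mul_gaussSum_eq_card hχi hψ
    rw [← star_gaussSum_eq, ← hτdef, ZMod.card] at h1
    have h2 : ‖τ‖ ^ 2 = p := by
      have h3 := congrArg norm h1
      rw [norm_mul, norm_star, Complex.norm_natCast] at h3
      rw [sq]
      exact h3
    rw [← h2, Real.sqrt_sq (norm_nonneg _)]
  have key : ∀ x : ZMod p, τ * χ x = ∑ a, χ⁻¹ a * ψ (x * a) := by
    intro x
    by_cases hx : x = 0
    · rw [hx, MulChar.map_zero, mul_zero]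
      simp only [zero_mul, AddChar.map_zero_eq_one, mul_one]
      exact (MulChar.sum_eq_zero_of_ne_one hχi).symm
    · have h1 := gaussSum_mulShift_eq χ⁻¹ ψ (Units.mk0 x hx)
      rw [inv_inv, Units.val_mk0, ← hτdef] at h1
      rw [mul_comm, ← h1]
      unfold gaussSum
      refine sum_congr rfl fun a _ => ?_
      rw [AddChar.mulShift_apply]
  have hS : τ * ∑ j ∈ range k, χ (c + (j : ZMod p)) =
      ∑ a, χ⁻¹ a * ψ (c * a) * ∑ j ∈ range k, ψ ((j : ZMod p) * a) := by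
    rw [mul_sum]
    simp_rw [key, mul_sum]
    rw [sum_comm]
    refine sum_congr rfl fun a _ => sum_congr rfl fun j _ => ?_
    rw [add_mul, AddChar.map_add_eq_mul]
    ring
  have hsum : ∀ F : ZMod p → ℝ, ∑ a, F a = ∑ a ∈ range p, F (a : ZMod p) := by
    intro F
    refine Finset.sum_nbij' (fun a => a.val) (fun a => (a : ZMod p)) ?_ ?_ ?_ ?_ ?_
    · intro a _
      exact mem_range.2 (ZMod.val_lt a)
    · intro a _
      exact mem_univ _
    · intro a _
      exact ZMod.natCast_zmod_val a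
    · intro a ha
      exact ZMod.val_cast_of_lt (mem_range.1 ha)
    · intro a _
      rw [ZMod.natCast_zmod_val]
  have hbound : ‖τ * ∑ j ∈ range k, χ (c + (j : ZMod p))‖ ≤
      ∑ a ∈ Finset.Ico 1 p, (p : ℝ) / (2 * (min a (p - a) : ℕ)) := by
    rw [hS]
    refine le_trans (norm_sum_le _ _) ?_
    rw [hsum (fun a => ‖χ⁻¹ a * ψ (c * a) * ∑ j ∈ range k, ψ ((j : ZMod p) * a)‖)]
    have hr : range p = insert 0 (Finset.Ico 1 p) := by
      ext a
      simp only [mem_range, mem_insert, mem_Ico]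
      have := hp.pos
      omega
    rw [hr, sum_insert (by simp)]
    have h0 : ‖χ⁻¹ ((0 : ℕ) : ZMod p) * ψ (c * ((0 : ℕ) : ZMod p)) *
        ∑ j ∈ range k, ψ ((j : ZMod p) * ((0 : ℕ) : ZMod p))‖ = 0 := by
      rw [Nat.cast_zero, MulChar.map_zero, zero_mul, zero_mul, norm_zero]
    rw [h0, zero_add]
    refine sum_le_sum fun a ha => ?_
    rw [mem_Ico] at ha
    have h1 : ‖χ⁻¹ (a : ZMod p)‖ ≤ 1 := DirichletCharacter.norm_le_one χ⁻¹ _
    have h2 : ‖ψ (c * (a : ZMod p))‖ = 1 := ψ.norm_apply _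
    have h3 : ∑ j ∈ range k, ψ ((j : ZMod p) * (a : ZMod p)) =
        ∑ j ∈ range k, Complex.exp (2 * Real.pi * Complex.I * (a * j / p : ℝ)) := by
      refine sum_congr rfl fun j _ => ?_
      have h4 : (j : ZMod p) * (a : ZMod p) = (((j * a : ℕ) : ℤ) : ZMod p) := by push_cast; ring
      rw [h4, hψdef, ZMod.stdAddChar_coe]
      congr 1
      push_cast
      ring
    rw [norm_mul, norm_mul, h2, mul_one, h3]
    have h5 := hGEO p a k ha.1 ha.2
    calc ‖χ⁻¹ (a : ZMod p)‖ * ‖∑ j ∈ range k, Complex.exp (2 * Real.pi * Complex.I *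
          (a * j / p : ℝ))‖ ≤ 1 * ‖∑ j ∈ range k, Complex.exp (2 * Real.pi * Complex.I *
          (a * j / p : ℝ))‖ := mul_le_mul_of_nonneg_right h1 (norm_nonneg _)
      _ ≤ _ := by rw [one_mul]; exact h5
  have hfin := le_trans hbound (hHSUM p hp.two_le)
  rw [norm_mul, hτ] at hfin
  have hp0 : (0 : ℝ) < p := by exact_mod_cast hp.pos
  have hsq : √(p : ℝ) * √(p : ℝ) = p := Real.mul_self_sqrt hp0.le
  have hspos : 0 < √(p : ℝ) := Real.sqrt_pos.2 hp0
  refine le_of_mul_le_mul_left ?_ hspos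
  rw [← mul_assoc, hsq]
  exact hfin

end Pool.Agent.Helper35.PF
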