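import Pool.Agent.Helper51.PF.Goals

/-!
# Project PF: packet ROOT
-/

namespace Pool.Agent.Helper35.PF

open Finset Pool.Agent.Helper51.PF

theorem g_root : G_ROOT := by
  classical
  intro p d _ e hd
  let F : Polynomial (ZMod p) := ∏ i ∈ Finset.Icc 1 d, (Polynomial.X + Polynomial.C (i : ZMod p))
  have hmon : ∀ i ∈ Finset.Icc 1 d,
      (Polynomial.X + Polynomial.C ((i : ℕ) : ZMod p)).Monic := fun i _ =>
    Polynomial.monic_X_add_C _
  have hdeg : F.natDegree = d := by
    rw [Polynomial.natDegree_prod_of_monic _ _ hmon,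
      sum_congr rfl (fun i _ => Polynomial.natDegree_X_add_C ((i : ℕ) : ZMod p))]
    simp
  have hdeg0 : 0 < F.degree := Polynomial.natDegree_pos_iff_degree_pos.1 (by rw [hdeg]; omega)
  have hcard := Polynomial.card_roots_sub_C' (a := e) hdeg0
  have hne : F - Polynomial.C e ≠ 0 := by
    intro h0
    rw [sub_eq_zero] at h0
    rw [h0, Polynomial.natDegree_C] at hdeg
    omega
  have hinj : Set.InjOn (fun m : ℕ => (m : ZMod p)) ((range p).filter (fun m : ℕ =>
      ∏ i ∈ Finset.Icc 1 d, ((m : ZMod p) + (i : ZMod p)) = e)) := by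
    intro a ha b hb hab
    rw [Finset.mem_coe, mem_filter, mem_range] at ha hb
    have h1 := (ZMod.natCast_eq_natCast_iff' a b p).1 hab
    rwa [Nat.mod_eq_of_lt ha.1, Nat.mod_eq_of_lt hb.1] at h1
  rw [← card_image_of_injOn hinj]
  refine le_trans (card_le_card (t := (F - Polynomial.C e).roots.toFinset) ?_) ?_
  · intro x hx
    obtain ⟨m, hm, rfl⟩ := mem_image.1 hx
    rw [mem_filter] at hm
    rw [Multiset.mem_toFinset, Polynomial.mem_roots hne, Polynomial.IsRoot.def,
      Polynomial.eval_sub, Polynomial.eval_C, sub_eq_zero, Polynomial.eval_prod]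
    rw [← hm.2]
    refine prod_congr rfl fun i _ => ?_
    simp
  · refine le_trans (Multiset.toFinset_card_le _) ?_
    rw [hdeg] at hcard
    exact hcard

end Pool.Agent.Helper35.PF
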